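import Pool.Agent.Helper77.SO.St3

set_option autoImplicit false

/-! Project SO, module ACC (written by helper18): a new neighbour can be accepted. -/

namespace Pool.Agent.Helper18.SO.ACC

open Equiv Equiv.Perm Pool.Agent.Helper35.PM Pool.Agent.Helper77.HY Pool.Agent.Helper77.OF4
  Pool.Agent.Helper77.SO

theorem main : StAcc := by
  intro V _ _ G R X W v x hx hWX hadj hA
  have hfin : Finite G.Dart :=
    Finite.of_injective (fun e : G.Dart => e.toProd) (fun e f hef => SimpleGraph.Dart.ext _ _ hef)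
  have hxW : x ∉ W := fun h => hx (hWX h)
  let d0 : G.Dart := ⟨(v, x), hadj⟩
  set N : ℕ := Function.minimalPeriod R.r d0 with hN
  have hper : d0 ∈ Function.periodicPts R.r := by
    rw [Function.mem_periodicPts]
    refine ⟨orderOf R.r, orderOf_pos R.r, ?_⟩
    show (R.r)^[orderOf R.r] d0 = d0
    rw [Equiv.Perm.iterate_eq_pow, pow_orderOf_eq_one]
    rfl
  have hNpos : 0 < N := Function.minimalPeriod_pos_of_mem_periodicPts hper
  set F : ℕ → G.Dart := fun s => (R.r ^ s) d0 with hF
  have hFadd : ∀ s i, F (s + i) = (R.r ^ i) (F s) := by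
    intro s i
    simp only [hF]
    rw [add_comm, pow_add, Equiv.Perm.mul_apply]
  have hFN : F N = d0 := by
    have h1 : (R.r)^[N] d0 = d0 := Function.iterate_minimalPeriod
    rw [Equiv.Perm.iterate_eq_pow] at h1
    exact h1
  have hF0 : F 0 = d0 := by simp [hF]
  have hFperiod : ∀ s, F (s + N) = F s := by
    intro s
    rw [add_comm, hFadd, hFN]
  have hFshift : ∀ s, F s = d0 → ∀ i, F (s + i) = F i := by
    intro s hs i
    rw [hFadd, hs]
  have hFst : ∀ s, (F s).fst = v := by
    intro s
    induction s with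
    | zero => rw [hF0]
    | succ s ih =>
      have h1 : F (s + 1) = R.r (F s) := by rw [hFadd, pow_one]
      rw [h1, R.fst_r, ih]
  have hFx : ∀ s, (F s).snd = x → F s = d0 := by
    intro s hs
    apply SimpleGraph.Dart.ext
    exact Prod.ext (hFst s) hs
  have hFne : ∀ s, 0 < s → s < N → (F s).snd ≠ x := by
    intro s h0 h1 h2
    have h3 : Function.IsPeriodicPt R.r s d0 := by
      show (R.r)^[s] d0 = d0
      rw [Equiv.Perm.iterate_eq_pow]
      exact hFx s h2
    have h4 := Function.IsPeriodicPt.minimalPeriod_le h0 h3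
    omega
  have hmin : ∀ s, Function.minimalPeriod R.r (F s) = N := by
    intro s
    have h1 := Function.minimalPeriod_apply_iterate hper s
    rw [Equiv.Perm.iterate_eq_pow] at h1
    exact h1
  have hAF : ∀ s i j k, 0 < i → i < j → j < k → k < N → (F s).snd ∈ X → (F (s + i)).snd ∈ X →
      (F (s + j)).snd ∈ X → (F (s + k)).snd ∈ X → (F s).snd ∈ W → (F (s + i)).snd ∉ W →
      (F (s + j)).snd ∈ W → (F (s + k)).snd ∈ W := by
    intro s i j k h0 h1 h2 h3 x1 x2 x3 x4 w1 w2 w3
    refine hA (F s) (F (s + i)) (F (s + j)) (F (s + k)) (hFst s) ?_ x1 x2 x3 x4 w1 w2 w3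
    exact ⟨i, j, k, h0, h1, h2, by rw [hmin s]; exact h3, (hFadd s i).symm, (hFadd s j).symm,
      (hFadd s k).symm⟩
  -- the positions of a dart
  have hpos : ∀ a : G.Dart, a.fst = v → ∃ s, F s = a := by
    intro a ha
    have h1 : R.r.SameCycle d0 a := R.trans d0 a ha.symm
    exact h1.exists_nat_pow_eq
  by_contra hcon
  rw [not_or] at hcon
  obtain ⟨hc1, hc2⟩ := hcon
  -- first violation
  have V1 : ∃ b c e, 0 < b ∧ b < c ∧ c < e ∧ e < N ∧ (F b).snd ∈ X ∧ (F b).snd ∉ W ∧
      (F c).snd ∈ W ∧ (F e).snd ∈ X ∧ (F e).snd ∉ W := by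
    unfold AFV at hc1
    push Not at hc1
    obtain ⟨a, b, c, e, ha, ⟨i, j, k, hi, hij, hjk, hk, rfl, rfl, rfl⟩, x1, x2, x3, x4, w1, w2, w3,
      w4⟩ := hc1
    obtain ⟨s, rfl⟩ := hpos a ha
    rw [hmin s] at hk
    rw [← hFadd] at x2 w2
    rw [← hFadd] at x3 w3
    rw [← hFadd] at x4 w4
    have n2 : (F (s + i)).snd ≠ x := fun h => w2 (by rw [h]; exact Finset.mem_insert_self x W)
    have n4 : (F (s + k)).snd ≠ x := fun h => w4 (by rw [h]; exact Finset.mem_insert_self x W)
    have y2 : (F (s + i)).snd ∈ X := (Finset.mem_insert.1 x2).resolve_left n2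
    have y4 : (F (s + k)).snd ∈ X := (Finset.mem_insert.1 x4).resolve_left n4
    have u2 : (F (s + i)).snd ∉ W := fun h => w2 (Finset.mem_insert_of_mem h)
    have u4 : (F (s + k)).snd ∉ W := fun h => w4 (Finset.mem_insert_of_mem h)
    by_cases h1 : (F s).snd = x
    · have hs := hFshift s (hFx s h1)
      rw [hs] at y2 y4 u2 u4 w3
      refine ⟨i, j, k, hi, hij, hjk, hk, y2, u2, ?_, y4, u4⟩
      exact (Finset.mem_insert.1 w3).resolve_left (hFne j (by omega) (by omega))
    · have u1 : (F s).snd ∈ W := (Finset.mem_insert.1 w1).resolve_left h1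
      by_cases h3 : (F (s + j)).snd = x
      · have hs := hFshift (s + j) (hFx _ h3)
        have e1 : F (k - j) = F (s + k) := by
          rw [← hs (k - j)]; congr 1; omega
        have e2 : F (N - j) = F s := by
          rw [← hs (N - j), ← hFperiod s]; congr 1; omega
        have e3 : F (N - j + i) = F (s + i) := by
          rw [← hs (N - j + i), ← hFperiod (s + i)]; congr 1; omega
        refine ⟨k - j, N - j, N - j + i, by omega, by omega, by omega, by omega, ?_, ?_, ?_, ?_,
          ?_⟩
        · rw [e1]; exact y4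
        · rw [e1]; exact u4
        · rw [e2]; exact u1
        · rw [e3]; exact y2
        · rw [e3]; exact u2
      · have u3 : (F (s + j)).snd ∈ W := (Finset.mem_insert.1 w3).resolve_left h3
        exact absurd (hAF s i j k hi hij hjk hk (hWX u1) y2 (hWX u3) y4 u1 u2 u3) u4
  have V2 : ∃ b c e, 0 < b ∧ b < c ∧ c < e ∧ e < N ∧ (F b).snd ∈ W ∧ (F c).snd ∈ X ∧
      (F c).snd ∉ W ∧ (F e).snd ∈ W := by
    unfold AFV at hc2
    push Not at hc2
    obtain ⟨a, b, c, e, ha, ⟨i, j, k, hi, hij, hjk, hk, rfl, rfl, rfl⟩, x1, x2, x3, x4, w1, w2, w3,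
      w4⟩ := hc2
    obtain ⟨s, rfl⟩ := hpos a ha
    rw [hmin s] at hk
    rw [← hFadd] at x2 w2
    rw [← hFadd] at x3 w3
    rw [← hFadd] at x4 w4
    by_cases h2 : (F (s + i)).snd = x
    · have hs := hFshift (s + i) (hFx _ h2)
      have e1 : F (j - i) = F (s + j) := by
        rw [← hs (j - i)]; congr 1; omega
      have e2 : F (k - i) = F (s + k) := by
        rw [← hs (k - i)]; congr 1; omega
      have e3 : F (N - i) = F s := by
        rw [← hs (N - i), ← hFperiod s]; congr 1; omega
      have n4 : (F (k - i)).snd ≠ x := hFne _ (by omega) (by omega)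
      rw [← e2] at x4 w4
      refine ⟨j - i, k - i, N - i, by omega, by omega, by omega, by omega, ?_, ?_, w4, ?_⟩
      · rw [e1]; exact w3
      · exact (Finset.mem_insert.1 x4).resolve_left n4
      · rw [e3]; exact w1
    · have y2 : (F (s + i)).snd ∈ X := (Finset.mem_insert.1 x2).resolve_left h2
      by_cases h4 : (F (s + k)).snd = x
      · have hs := hFshift (s + k) (hFx _ h4)
        have e1 : F (N - k) = F s := by
          rw [← hs (N - k), ← hFperiod s]; congr 1; omega
        have e2 : F (N - k + i) = F (s + i) := by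
          rw [← hs (N - k + i), ← hFperiod (s + i)]; congr 1; omega
        have e3 : F (N - k + j) = F (s + j) := by
          rw [← hs (N - k + j), ← hFperiod (s + j)]; congr 1; omega
        refine ⟨N - k, N - k + i, N - k + j, by omega, by omega, by omega, by omega, ?_, ?_, ?_,
          ?_⟩
        · rw [e1]; exact w1
        · rw [e2]; exact y2
        · rw [e2]; exact w2
        · rw [e3]; exact w3
      · have y4 : (F (s + k)).snd ∈ X := (Finset.mem_insert.1 x4).resolve_left h4
        exact absurd (hAF s i j k hi hij hjk hk (hWX w1) y2 (hWX w3) y4 w1 w2 w3) w4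
  obtain ⟨b, c, e, hb0, hbc, hce, heN, xb, wb, wc, xe, we⟩ := V1
  obtain ⟨b', c', e', hb0', hbc', hce', heN', wb', xc', wc', we'⟩ := V2
  classical
  have hex : ∃ s, 0 < s ∧ (F s).snd ∈ X := ⟨b, hb0, xb⟩
  set f := Nat.find hex with hfdef
  obtain ⟨hf0, hfX⟩ : 0 < f ∧ (F f).snd ∈ X := Nat.find_spec hex
  have hfb : f ≤ b := Nat.find_min' hex ⟨hb0, xb⟩
  have hfb' : f ≤ b' := Nat.find_min' hex ⟨hb0', hWX wb'⟩
  by_cases hfW : (F f).snd ∈ W
  · have hne : f ≠ b := fun h => wb (h ▸ hfW)
    have e1 : F (f + (b - f)) = F b := by congr 1; omega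
    have e2 : F (f + (c - f)) = F c := by congr 1; omega
    have e3 : F (f + (e - f)) = F e := by congr 1; omega
    have h1 := hAF f (b - f) (c - f) (e - f) (by omega) (by omega) (by omega) (by omega) hfX
      (by rw [e1]; exact xb) (by rw [e2]; exact hWX wc) (by rw [e3]; exact xe) hfW
      (by rw [e1]; exact wb) (by rw [e2]; exact wc)
    rw [e3] at h1
    exact we h1
  · have hne : f ≠ b' := fun h => hfW (h ▸ wb')
    have e1 : F (b' + (c' - b')) = F c' := by congr 1; omega
    have e2 : F (b' + (e' - b')) = F e' := by congr 1; omega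
    have e3 : F (b' + (f + N - b')) = F f := by
      rw [← hFperiod f]; congr 1; omega
    have h1 := hAF b' (c' - b') (e' - b') (f + N - b') (by omega) (by omega) (by omega)
      (by omega) (hWX wb') (by rw [e1]; exact xc') (by rw [e2]; exact hWX we')
      (by rw [e3]; exact hfX) wb' (by rw [e1]; exact wc') (by rw [e2]; exact we')
    rw [e3] at h1
    exact hfW h1

end Pool.Agent.Helper18.SO.ACC
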